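import Mathlib

/-!
# Vertices of operator convex corners and facets of their anti-blockers

We prove that for every `n ≥ 1`, every convex corner `C ⊆ P_n` and every nonzero vertex `X` of `C`,
the set `F_X = {Z ∈ C^♯ : Tr (X Z) = 1}` is a facet of the anti-blocker `C^♯`.

Idea of the proof.  Let `N` be the normal cone of `C` at `X`.  That `X` is a vertex says that `N`
spans `H_n`.  If `Y ∈ N` is positive definite on the range of `X`, then the Schur type completion
`Z = Y A`, where `A` is the `Y`-orthogonal projection onto the range of `X`, is positive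
semidefinite and, because `C` is hereditary, it is again in `N` (lemmas `key` and
`exists_schur_elt`).  Summing such elements gives a positive definite element of `N`, hence
`N ∩ P_n` has nonempty (algebraic) interior, and `F_X` is a slice of `N ∩ P_n`.
-/

open Matrix
open scoped ComplexOrder

namespace Pool.Agent.Results.MP_59e64e_co.VertexFacet

/-- Square complex matrices. -/
abbrev Mat (n : ℕ) : Type := Matrix (Fin n) (Fin n) ℂ

/-- The real vector space `H_n` of Hermitian `n × n` complex matrices. -/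
abbrev Herm (n : ℕ) : Type := selfAdjoint (Mat n)

/-- The pairing `(X, Y) ↦ Tr (X Y)`; for Hermitian matrices this trace is a real number. -/
noncomputable def pair {n : ℕ} (X Y : Herm n) : ℝ := (Matrix.trace ((X : Mat n) * (Y : Mat n))).re

/-- The set `P_n` of positive semidefinite matrices inside `H_n`. -/
def psd (n : ℕ) : Set (Herm n) := {X | (X : Mat n).PosSemidef}

/-- A convex corner: a nonempty closed convex subset `C` of `P_n` such that `A ∈ C` and
`0 ≤ B ≤ A` imply `B ∈ C`. -/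
structure IsConvexCorner {n : ℕ} (C : Set (Herm n)) : Prop where
  nonempty : C.Nonempty
  isClosed : IsClosed C
  convex : Convex ℝ C
  subset_psd : C ⊆ psd n
  hereditary : ∀ A ∈ C, ∀ B : Herm n, B ∈ psd n → A - B ∈ psd n → B ∈ C

/-- The anti-blocker `C^♯ = {Z ∈ P_n : Tr (X Z) ≤ 1 for all X ∈ C}`. -/
def antiblocker {n : ℕ} (C : Set (Herm n)) : Set (Herm n) :=
  {Z | Z ∈ psd n ∧ ∀ X ∈ C, pair X Z ≤ 1}

/-- `P` is a supporting hyperplane of `C` at the subset `T`: a hyperplane `{X : Tr (X Y) = α}`,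
`Y ≠ 0`, with `Tr (X Y) ≤ α` on `C` and equality on `T`. -/
def IsSupportingHyperplane {n : ℕ} (C T P : Set (Herm n)) : Prop :=
  ∃ (Y : Herm n) (α : ℝ), Y ≠ 0 ∧ P = {X | pair X Y = α} ∧
    (∀ X ∈ C, pair X Y ≤ α) ∧ (∀ X ∈ T, pair X Y = α)

/-- `X` is a vertex of `C`: a boundary point of `C` such that the supporting hyperplanes of `C`
at `X` intersect exactly in `{X}`. -/
def IsVertex {n : ℕ} (C : Set (Herm n)) (X : Herm n) : Prop :=
  X ∈ frontier C ∧ ⋂₀ {P | IsSupportingHyperplane C {X} P} = {X}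

/-- `F` is a facet of `C`: it is cut out of `C` by a supporting hyperplane, lies in the boundary
of `C`, and its affine hull has dimension `n ^ 2 - 1`. -/
def IsFacet {n : ℕ} (C F : Set (Herm n)) : Prop :=
  (∃ (Y : Herm n) (α : ℝ), Y ≠ 0 ∧ (∀ X ∈ C, pair X Y ≤ α) ∧ F = {X | X ∈ C ∧ pair X Y = α}) ∧
    F ⊆ frontier C ∧ F.Nonempty ∧
    Module.finrank ℝ (affineSpan ℝ F).direction = n ^ 2 - 1

section matrices

variable {n : ℕ}

open scoped MatrixOrder Matrix.Norms.L2Operator in
lemma exists_le_one (M : Mat n) (hM : M.IsHermitian) :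
    ∃ c : ℝ, 0 ≤ c ∧ (c • (1 : Mat n) - M).PosSemidef := by
  refine ⟨‖M‖, norm_nonneg _, ?_⟩
  rw [← Matrix.le_iff]
  have h : IsSelfAdjoint M := hM
  have := h.le_algebraMap_norm_self
  rwa [Algebra.algebraMap_eq_smul_one] at this

lemma psmul {M : Mat n} (hM : M.PosSemidef) {c : ℝ} (hc : 0 ≤ c) : (c • M).PosSemidef :=
  hM.smul hc

open scoped MatrixOrder in
lemma exists_factor {X : Mat n} (hX : X.PosSemidef) : ∃ B : Mat n, X = Bᴴ * B := by
  have h := (CStarAlgebra.nonneg_iff_eq_star_mul_self (a := X)).1 hX.nonneg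
  exact h

/-- For PSD `X` and Hermitian `R`, `X R X ≤ c X` for some `c ≥ 0`. -/
lemma exists_conj_le (X R : Mat n) (hX : X.PosSemidef) (hR : R.IsHermitian) :
    ∃ c : ℝ, 0 ≤ c ∧ (c • X - X * R * X).PosSemidef := by
  obtain ⟨B, hB⟩ := exists_factor hX
  obtain ⟨c, hc, hc'⟩ := exists_le_one _ (isHermitian_mul_mul_conjTranspose B hR)
  refine ⟨c, hc, ?_⟩
  have := hc'.conjTranspose_mul_mul_same B
  have e : Bᴴ * (c • (1 : Mat n) - B * R * Bᴴ) * B = c • X - X * R * X := by
    rw [hB]; noncomm_ring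
  rwa [e] at this

/-- A PSD matrix with trivial kernel dominates a positive multiple of the identity. -/
lemma exists_pos_le (Z : Mat n) (hZ : Z.PosSemidef) (hker : ∀ w, Z *ᵥ w = 0 → w = 0) :
    ∃ c : ℝ, 0 < c ∧ (Z - c • (1 : Mat n)).PosSemidef := by
  obtain ⟨B, hB⟩ := exists_factor hZ
  have hBker : ∀ w, B *ᵥ w = 0 → w = 0 := by
    intro w hw
    apply hker
    rw [hB, ← mulVec_mulVec, hw, mulVec_zero]
  have hBu : IsUnit B := by
    rw [← Matrix.mulVec_injective_iff_isUnit]
    intro x y hxy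
    have : B *ᵥ (x - y) = 0 := by
      rw [mulVec_sub, sub_eq_zero]; exact hxy
    exact sub_eq_zero.1 (hBker _ this)
  have hdet : IsUnit B.det := (Matrix.isUnit_iff_isUnit_det B).1 hBu
  obtain ⟨c, hc, hc'⟩ := exists_le_one ((B⁻¹)ᴴ * B⁻¹) (isHermitian_conjTranspose_mul_self _)
  have h1 : ((c + 1) • (1 : Mat n) - (B⁻¹)ᴴ * B⁻¹).PosSemidef := by
    have := hc'.add (Matrix.PosSemidef.one (n := Fin n) (R := ℂ))
    have e : c • (1 : Mat n) - (B⁻¹)ᴴ * B⁻¹ + 1 = (c + 1) • (1 : Mat n) - (B⁻¹)ᴴ * B⁻¹ := by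
      rw [add_smul, one_smul]; abel
    rwa [e] at this
  have h2 := h1.conjTranspose_mul_mul_same B
  have e2 : Bᴴ * ((c + 1) • (1 : Mat n) - (B⁻¹)ᴴ * B⁻¹) * B = (c + 1) • Z - 1 := by
    have h3 : Bᴴ * ((B⁻¹)ᴴ * B⁻¹) * B = 1 := by
      have : Bᴴ * (B⁻¹)ᴴ = 1 := by
        rw [← conjTranspose_mul, Matrix.nonsing_inv_mul _ hdet, conjTranspose_one]
      rw [← mul_assoc, this, one_mul, Matrix.nonsing_inv_mul _ hdet]
    rw [mul_sub, sub_mul, h3, hB]
    simp
  rw [e2] at h2
  refine ⟨(c + 1)⁻¹, by positivity, ?_⟩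
  have h3 := psmul h2 (c := (c + 1)⁻¹) (by positivity)
  have e3 : (c + 1)⁻¹ • ((c + 1) • Z - 1) = Z - (c + 1)⁻¹ • (1 : Mat n) := by
    rw [smul_sub, smul_smul, inv_mul_cancel₀ (by positivity), one_smul]
  rwa [e3] at h3


/-- If `X Y X` has the same kernel as `X`, there is `Q` such that `X Q` is the `Y`-orthogonal
projection onto the range of `X`. -/
lemma exists_schur (X Y : Mat n)
    (hker : ∀ g, (X * Y * X) *ᵥ g = 0 → X *ᵥ g = 0) :
    ∃ Q : Mat n, X * Y * X * Q = X * Y ∧ X * Q * X = X := by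
  have hr : LinearMap.range (X * Y * X).mulVecLin = LinearMap.range X.mulVecLin := by
    apply Submodule.eq_of_le_of_finrank_eq
    · rintro _ ⟨v, rfl⟩
      refine ⟨(Y * X) *ᵥ v, ?_⟩
      simp [mulVec_mulVec, mul_assoc]
    · have h1 := LinearMap.finrank_range_add_finrank_ker (X * Y * X).mulVecLin
      have h2 := LinearMap.finrank_range_add_finrank_ker X.mulVecLin
      have h3 : LinearMap.ker (X * Y * X).mulVecLin = LinearMap.ker X.mulVecLin := by
        ext g
        simp only [LinearMap.mem_ker, mulVecLin_apply]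
        constructor
        · exact hker g
        · intro h
          rw [← mulVec_mulVec, h, mulVec_zero]
      rw [h3] at h1
      omega
  have hcol : ∀ j : Fin n, ∃ q : Fin n → ℂ, (X * Y * X) *ᵥ q = (X * Y).col j := by
    intro j
    have : (X * Y).col j ∈ LinearMap.range X.mulVecLin := by
      refine ⟨Y.col j, ?_⟩
      simp only [mulVecLin_apply]
      ext i
      simp [mulVec, dotProduct, mul_apply, Matrix.col]
    rw [← hr] at this
    obtain ⟨q, hq⟩ := this
    exact ⟨q, hq⟩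
  choose q hq using hcol
  refine ⟨Matrix.of fun i j => q j i, ?_, ?_⟩
  · ext i j
    have := congrFun (hq j) i
    simpa [mulVec, dotProduct, mul_apply, Matrix.col] using this
  · set Q : Mat n := Matrix.of fun i j => q j i with hQ
    have h1 : X * Y * X * Q = X * Y := by
      ext i j
      have := congrFun (hq j) i
      simpa [mulVec, dotProduct, mul_apply, Matrix.col, hQ] using this
    have h2 : ∀ g, X *ᵥ ((Q * X - 1) *ᵥ g) = 0 := by
      intro g
      apply hker
      rw [mulVec_mulVec]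
      have : X * Y * X * (Q * X - 1) = 0 := by
        rw [mul_sub, ← mul_assoc, h1]; simp
      rw [this, zero_mulVec]
    have h3 : X * (Q * X - 1) = 0 := by
      apply Matrix.ext_of_mulVec_single
      intro i
      rw [← mulVec_mulVec, h2, zero_mulVec]
    rw [mul_sub, mul_one, sub_eq_zero, ← mul_assoc] at h3
    exact h3

end matrices

section pairs

variable {n : ℕ}

/-- The inclusion of Hermitian matrices in all matrices, as a real linear map. -/
def inclL (n : ℕ) : Herm n →ₗ[ℝ] Mat n where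
  toFun X := X
  map_add' _ _ := rfl
  map_smul' _ _ := rfl

lemma finDim (n : ℕ) : FiniteDimensional ℝ (Herm n) :=
  FiniteDimensional.of_injective (inclL n) Subtype.coe_injective

lemma pair_comm (X Y : Herm n) : pair X Y = pair Y X := by
  unfold pair; rw [Matrix.trace_mul_comm]

lemma pair_add_left (X X' Y : Herm n) : pair (X + X') Y = pair X Y + pair X' Y := by
  simp [pair, add_mul]

lemma pair_smul_left (c : ℝ) (X Y : Herm n) : pair (c • X) Y = c * pair X Y := by
  simp [pair]

lemma pair_sub_left (X X' Y : Herm n) : pair (X - X') Y = pair X Y - pair X' Y := by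
  simp [pair, sub_mul]

lemma pair_add_right (X Y Y' : Herm n) : pair X (Y + Y') = pair X Y + pair X Y' := by
  rw [pair_comm, pair_add_left, pair_comm Y, pair_comm Y']

lemma pair_smul_right (c : ℝ) (X Y : Herm n) : pair X (c • Y) = c * pair X Y := by
  rw [pair_comm, pair_smul_left, pair_comm Y]

lemma pair_self_pos {X : Herm n} (hX : X ≠ 0) : 0 < pair X X := by
  have hXh : (X : Mat n)ᴴ = X := X.2
  have h1 : (0 : ℂ) ≤ ((X : Mat n)ᴴ * (X : Mat n)).trace :=
    (posSemidef_conjTranspose_mul_self (X : Mat n)).trace_nonneg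
  have h2 : ((X : Mat n)ᴴ * (X : Mat n)).trace ≠ 0 := by
    rw [Ne, trace_conjTranspose_mul_self_eq_zero_iff]
    intro h
    exact hX (Subtype.ext h)
  rw [hXh] at h1 h2
  have h3 := Complex.le_def.1 h1
  have h4 : 0 ≤ pair X X := by simpa [pair] using h3.1
  rcases h4.lt_or_eq with h | h
  · exact h
  · exfalso
    apply h2
    apply Complex.ext
    · simpa [pair] using h.symm
    · simpa using h3.2.symm

/-- The pairing as a linear map. -/
noncomputable def pairL (n : ℕ) : Herm n →ₗ[ℝ] Module.Dual ℝ (Herm n) :=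
  LinearMap.mk₂ ℝ pair pair_add_left pair_smul_left pair_add_right pair_smul_right

end pairs

section cone

variable {n : ℕ}

/-- The normal cone of `C` at `X`. -/
def ncone (C : Set (Herm n)) (X : Herm n) : Set (Herm n) := {Y | ∀ W ∈ C, pair W Y ≤ pair X Y}

lemma ncone_zero (C : Set (Herm n)) (X : Herm n) : (0 : Herm n) ∈ ncone C X := by
  intro W _; simp [pair]

lemma ncone_add {C : Set (Herm n)} {X Y Y' : Herm n} (h : Y ∈ ncone C X) (h' : Y' ∈ ncone C X) :
    Y + Y' ∈ ncone C X := by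
  intro W hW
  rw [pair_add_right, pair_add_right]
  exact add_le_add (h W hW) (h' W hW)

lemma ncone_smul {C : Set (Herm n)} {X Y : Herm n} (h : Y ∈ ncone C X) {c : ℝ} (hc : 0 ≤ c) :
    c • Y ∈ ncone C X := by
  intro W hW
  rw [pair_smul_right, pair_smul_right]
  exact mul_le_mul_of_nonneg_left (h W hW) hc

lemma ncone_sum {C : Set (Herm n)} {X : Herm n} {ι : Type*} (s : Finset ι) (f : ι → Herm n)
    (h : ∀ i ∈ s, f i ∈ ncone C X) : ∑ i ∈ s, f i ∈ ncone C X := by
  classical
  induction s using Finset.induction_on with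
  | empty => simpa using ncone_zero C X
  | insert a s ha ih =>
    rw [Finset.sum_insert ha]
    exact ncone_add (h a (Finset.mem_insert_self a s))
      (ih fun i hi => h i (Finset.mem_insert_of_mem hi))

/-- Hermitian matrices as elements of `Herm n`. -/
def mk (M : Mat n) (hM : M.IsHermitian) : Herm n := ⟨M, hM⟩

@[simp] lemma coe_mk (M : Mat n) (hM : M.IsHermitian) : ((mk M hM : Herm n) : Mat n) = M := rfl


lemma mem_of_le {C : Set (Herm n)} (hC : IsConvexCorner C) {A : Herm n} (hA : A ∈ C)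
    (B : Mat n) (hB : B.PosSemidef) (hAB : ((A : Mat n) - B).PosSemidef) :
    mk B hB.1 ∈ C :=
  hC.hereditary A hA _ hB (by simpa [psd] using hAB)

/-- Elements of the normal cone at `X` are positive on the range of `X`. -/
lemma conj_psd {C : Set (Herm n)} (hC : IsConvexCorner C) {X : Herm n} (hX : X ∈ C)
    {Y : Herm n} (hY : Y ∈ ncone C X) :
    ((X : Mat n) * (Y : Mat n) * (X : Mat n)).PosSemidef := by
  have hXh : (X : Mat n).IsHermitian := X.2
  have hYh : (Y : Mat n).IsHermitian := Y.2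
  have hXp : (X : Mat n).PosSemidef := hC.subset_psd hX
  have hS : ((X : Mat n) * (Y : Mat n) * (X : Mat n)).IsHermitian := by
    have := isHermitian_conjTranspose_mul_mul (X : Mat n) hYh
    rwa [hXh.eq] at this
  refine PosSemidef.of_dotProduct_mulVec_nonneg hS fun g => ?_
  have hR : (vecMulVec g (star g)).PosSemidef := posSemidef_vecMulVec_self_star g
  obtain ⟨c, hc, hc'⟩ := exists_conj_le (X : Mat n) _ hXp hR.1
  have hXRX : ((X : Mat n) * vecMulVec g (star g) * (X : Mat n)).PosSemidef := by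
    have := hR.conjTranspose_mul_mul_same (X : Mat n)
    rwa [hXh.eq] at this
  have hc1 : (0 : ℝ) < c + 1 := by linarith
  have hB : ((X : Mat n) - (c + 1)⁻¹ • ((X : Mat n) * vecMulVec g (star g) * (X : Mat n))).PosSemidef := by
    have h1 := psmul (hc'.add hXp) (c := (c + 1)⁻¹) (by positivity)
    have e : (c + 1)⁻¹ • (c • (X : Mat n) - (X : Mat n) * vecMulVec g (star g) * (X : Mat n) + (X : Mat n)) =
        (X : Mat n) - (c + 1)⁻¹ • ((X : Mat n) * vecMulVec g (star g) * (X : Mat n)) := by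
      have e1 : c • (X : Mat n) - (X : Mat n) * vecMulVec g (star g) * (X : Mat n) + (X : Mat n) =
        (c + 1) • (X : Mat n) - (X : Mat n) * vecMulVec g (star g) * (X : Mat n) := by
        rw [add_smul, one_smul]; abel
      rw [e1, smul_sub, smul_smul, inv_mul_cancel₀ hc1.ne', one_smul]
    rwa [e] at h1
  have hmem := mem_of_le hC hX _ hB (by
    rw [sub_sub_cancel]
    exact psmul hXRX (by positivity))
  have h2 := hY _ hmem
  have h3 : pair (mk _ hB.1) Y = pair X Y - (c + 1)⁻¹ * (star g ⬝ᵥ (((X : Mat n) * (Y : Mat n) * (X : Mat n)) *ᵥ g)).re := by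
    have e4 : ((X : Mat n) * vecMulVec g (star g) * (X : Mat n) * (Y : Mat n)).trace =
        star g ⬝ᵥ (((X : Mat n) * (Y : Mat n) * (X : Mat n)) *ᵥ g) := by
      rw [Matrix.mul_assoc, Matrix.mul_assoc, Matrix.trace_mul_comm, Matrix.mul_assoc,
        vecMulVec_mul, trace_vecMulVec, dotProduct_comm, ← dotProduct_mulVec, Matrix.mul_assoc]
    simp only [pair, coe_mk, sub_mul, trace_sub, Complex.sub_re, Matrix.smul_mul, trace_smul,
      Complex.real_smul, Complex.mul_re, Complex.ofReal_re, Complex.ofReal_im, zero_mul, sub_zero, e4]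
  rw [h3] at h2
  have h4 : 0 ≤ (star g ⬝ᵥ (((X : Mat n) * (Y : Mat n) * (X : Mat n)) *ᵥ g)).re := by
    have : 0 ≤ (c + 1)⁻¹ * (star g ⬝ᵥ (((X : Mat n) * (Y : Mat n) * (X : Mat n)) *ᵥ g)).re := by
      linarith
    exact nonneg_of_mul_nonneg_right this (by positivity)
  rw [Complex.le_def]
  refine ⟨h4, ?_⟩
  have := hS.im_star_dotProduct_mulVec_self g
  exact this.symm

/-- The key inequality. -/
lemma key {C : Set (Herm n)} (hC : IsConvexCorner C) {X : Herm n} (hX : X ∈ C)
    {Y : Herm n} (hY : Y ∈ ncone C X) (Q : Mat n) {W : Herm n} (hW : W ∈ C)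
    (hQX : (X : Mat n) * Q * (X : Mat n) = X) :
    pair W Y - pair X Y ≤
      (((1 - (X : Mat n) * Q) * (W : Mat n) * (1 - (X : Mat n) * Q)ᴴ * (Y : Mat n)).trace).re := by
  have hXh : (X : Mat n)ᴴ = X := X.2
  have hXp : (X : Mat n).PosSemidef := hC.subset_psd hX
  have hWp : (W : Mat n).PosSemidef := hC.subset_psd hW
  have hR : (Q * (W : Mat n) * Qᴴ).PosSemidef := hWp.mul_mul_conjTranspose_same Q
  obtain ⟨c, hc, hc'⟩ := exists_conj_le (X : Mat n) _ hXp hR.1
  set V : Mat n := 1 - (X : Mat n) * Q with hV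
  have hVX : V * (X : Mat n) = 0 := by
    rw [hV, sub_mul, one_mul, hQX, sub_self]
  have hT : (V * (W : Mat n) * Vᴴ).PosSemidef := hWp.mul_mul_conjTranspose_same V
  set t : ℝ := ((V * (W : Mat n) * Vᴴ * (Y : Mat n)).trace).re with ht
  have hxle : pair W Y - pair X Y ≤ 0 := by linarith [hY W hW]
  have main : ∀ η : ℝ, 0 < η → (1 + η) * (pair W Y - pair X Y) ≤ t := by
    intro η hη
    set τ : ℝ := η / (η + c) with hτ
    have hηc : 0 < η + c := by linarith
    have hτ0 : 0 < τ := by positivity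
    have hτ1 : τ ≤ 1 := by
      rw [hτ, div_le_one hηc]; linarith
    have hmem : (1 - τ) • X + τ • W ∈ C :=
      hC.convex hX hW (by linarith) hτ0.le (by ring)
    set B : Mat n := (1 - τ) • (X : Mat n) + τ • (W : Mat n) - (τ * (1 + η)⁻¹) • (V * (W : Mat n) * Vᴴ) with hB
    have hP1 : ((1 + η⁻¹ • ((X : Mat n) * Q)) * (W : Mat n) * (1 + η⁻¹ • ((X : Mat n) * Q))ᴴ).PosSemidef :=
      hWp.mul_mul_conjTranspose_same _
    have hBp : B.PosSemidef := by
      have h1 := (psmul hP1 (c := τ * (1 + η)⁻¹ * η) (by positivity)).add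
        (psmul hc' (c := τ * η⁻¹) (by positivity))
      have e : (τ * (1 + η)⁻¹ * η) • ((1 + η⁻¹ • ((X : Mat n) * Q)) * (W : Mat n) * (1 + η⁻¹ • ((X : Mat n) * Q))ᴴ) +
          (τ * η⁻¹) • (c • (X : Mat n) - (X : Mat n) * (Q * (W : Mat n) * Qᴴ) * (X : Mat n)) = B := by
        have e1 : (1 + η⁻¹ • ((X : Mat n) * Q)) * (W : Mat n) * (1 + η⁻¹ • ((X : Mat n) * Q))ᴴ =
            (W : Mat n) + η⁻¹ • ((X : Mat n) * Q * (W : Mat n) + (W : Mat n) * (Qᴴ * (X : Mat n))) +
              (η⁻¹ * η⁻¹) • ((X : Mat n) * Q * (W : Mat n) * (Qᴴ * (X : Mat n))) := by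
          rw [conjTranspose_add, conjTranspose_one, conjTranspose_smul, conjTranspose_mul, hXh]
          simp only [star_trivial, add_mul, mul_add, one_mul, mul_one, smul_mul_assoc, mul_smul_comm,
            smul_add, smul_smul]
          abel
        have e2 : V * (W : Mat n) * Vᴴ = (W : Mat n) - ((X : Mat n) * Q * (W : Mat n) + (W : Mat n) * (Qᴴ * (X : Mat n))) +
            (X : Mat n) * Q * (W : Mat n) * (Qᴴ * (X : Mat n)) := by
          rw [hV, conjTranspose_sub, conjTranspose_one, conjTranspose_mul, hXh]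
          noncomm_ring
        have e3 : (X : Mat n) * (Q * (W : Mat n) * Qᴴ) * (X : Mat n) = (X : Mat n) * Q * (W : Mat n) * (Qᴴ * (X : Mat n)) := by
          noncomm_ring
        rw [hB, e1, e2, e3]
        generalize (X : Mat n) * Q * (W : Mat n) * (Qᴴ * (X : Mat n)) = G1
        generalize (X : Mat n) * Q * (W : Mat n) + (W : Mat n) * (Qᴴ * (X : Mat n)) = G2
        have h1τ : 1 - τ = τ * η⁻¹ * c := by
          rw [hτ]; field_simp; ring
        have hη1 : (1 + η) ≠ 0 := by positivity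
        rw [h1τ]
        simp only [smul_add, smul_sub, smul_smul]
        have c1 : τ * (1 + η)⁻¹ * η = τ - τ * (1 + η)⁻¹ := by field_simp; ring
        have c2 : τ * (1 + η)⁻¹ * η * η⁻¹ = τ * (1 + η)⁻¹ := by field_simp
        have c3 : τ * (1 + η)⁻¹ * η * (η⁻¹ * η⁻¹) = τ * η⁻¹ - τ * (1 + η)⁻¹ := by field_simp; ring
        rw [c3, c2, c1]
        module
      rwa [e] at h1
    have hsub : ((((1 - τ) • X + τ • W : Herm n) : Mat n) - B).PosSemidef := by
      have e : (((1 - τ) • X + τ • W : Herm n) : Mat n) - B = (τ * (1 + η)⁻¹) • (V * (W : Mat n) * Vᴴ) := by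
        rw [hB]; simp
      rw [e]
      exact psmul hT (by positivity)
    have hBC := mem_of_le hC hmem B hBp hsub
    have h2 := hY _ hBC
    have h3 : pair (mk B hBp.1) Y = (1 - τ) * pair X Y + τ * pair W Y - (τ * (1 + η)⁻¹) * t := by
      simp only [pair, coe_mk, hB, ht, sub_mul, add_mul, trace_sub, trace_add, Complex.sub_re,
        Complex.add_re, Matrix.smul_mul, trace_smul,
        Complex.real_smul, Complex.mul_re, Complex.ofReal_re, Complex.ofReal_im, zero_mul, sub_zero]
    rw [h3] at h2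
    have h4 : τ * (pair W Y - pair X Y) ≤ τ * ((1 + η)⁻¹ * t) := by linarith
    have h5 : pair W Y - pair X Y ≤ (1 + η)⁻¹ * t := le_of_mul_le_mul_left h4 hτ0
    have h6 : (0 : ℝ) < 1 + η := by linarith
    calc (1 + η) * (pair W Y - pair X Y) ≤ (1 + η) * ((1 + η)⁻¹ * t) :=
          mul_le_mul_of_nonneg_left h5 h6.le
      _ = t := by rw [← mul_assoc, mul_inv_cancel₀ h6.ne', one_mul]
  apply le_of_forall_pos_le_add
  intro ε hε
  set x := pair W Y - pair X Y with hx
  have h1 := main (ε / (|x| + 1)) (by positivity)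
  have h2 : |x| = -x := abs_of_nonpos hxle
  have h3 : ε / (|x| + 1) * |x| ≤ ε := by
    rw [div_mul_eq_mul_div, div_le_iff₀ (by positivity)]
    nlinarith [abs_nonneg x]
  have h4 : (1 + ε / (|x| + 1)) * x = x - ε / (|x| + 1) * |x| := by
    rw [h2]; ring
  rw [h4] at h1
  linarith


lemma exists_schur_elt {C : Set (Herm n)} (hC : IsConvexCorner C) {X : Herm n} (hX : X ∈ C)
    {Y : Herm n} (hY : Y ∈ ncone C X)
    (hker : ∀ g, ((X : Mat n) * (Y : Mat n) * (X : Mat n)) *ᵥ g = 0 → (X : Mat n) *ᵥ g = 0) :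
    ∃ Z : Herm n, Z ∈ ncone C X ∧ Z ∈ psd n ∧ (X : Mat n) * (Z : Mat n) = (X : Mat n) * (Y : Mat n) := by
  have hXh : (X : Mat n)ᴴ = X := X.2
  have hYh : (Y : Mat n)ᴴ = Y := Y.2
  obtain ⟨Q, hQ1, hQ2⟩ := exists_schur (X : Mat n) (Y : Mat n) hker
  have hS := conj_psd hC hX hY
  have hZ := hS.conjTranspose_mul_mul_same Q
  have hQ1' : Qᴴ * ((X : Mat n) * (Y : Mat n) * (X : Mat n)) = (Y : Mat n) * (X : Mat n) := by
    have := congrArg conjTranspose hQ1
    simpa [conjTranspose_mul, hXh, hYh, Matrix.mul_assoc] using this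
  have e1 : Qᴴ * ((X : Mat n) * (Y : Mat n) * (X : Mat n)) * Q = (Y : Mat n) * (X : Mat n) * Q := by
    rw [hQ1']
  have e2 : Qᴴ * ((X : Mat n) * (Y : Mat n) * (X : Mat n)) * Q = Qᴴ * (X : Mat n) * (Y : Mat n) := by
    rw [Matrix.mul_assoc, hQ1, Matrix.mul_assoc]
  refine ⟨mk _ hZ.1, ?_, hZ, ?_⟩
  · intro W hW
    have hk := key hC hX hY Q hW hQ2
    have e3 : ((1 - (X : Mat n) * Q) * (W : Mat n) * (1 - (X : Mat n) * Q)ᴴ * (Y : Mat n)).trace =
        ((W : Mat n) * (Y : Mat n)).trace -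
          ((W : Mat n) * (Qᴴ * ((X : Mat n) * (Y : Mat n) * (X : Mat n)) * Q)).trace := by
      rw [Matrix.mul_assoc, Matrix.mul_assoc, Matrix.trace_mul_comm, Matrix.mul_assoc, ← trace_sub,
        ← mul_sub]
      congr 2
      rw [conjTranspose_sub, conjTranspose_one, conjTranspose_mul, hXh]
      have e4 : (1 - Qᴴ * (X : Mat n)) * (Y : Mat n) * (1 - (X : Mat n) * Q) =
          (Y : Mat n) - Qᴴ * (X : Mat n) * (Y : Mat n) - (Y : Mat n) * (X : Mat n) * Q
            + Qᴴ * ((X : Mat n) * (Y : Mat n) * (X : Mat n)) * Q := by noncomm_ring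
      rw [e4, ← e1, ← e2]
      abel
    rw [e3, Complex.sub_re] at hk
    have e5 : pair X (mk _ hZ.1) = pair X Y := by
      simp only [pair, coe_mk]
      rw [e1, ← Matrix.mul_assoc, ← Matrix.mul_assoc, hQ1]
    rw [e5]
    have e6 : pair W (mk _ hZ.1) = ((W : Mat n) * (Qᴴ * ((X : Mat n) * (Y : Mat n) * (X : Mat n)) * Q)).trace.re := rfl
    rw [e6]
    have e7 : pair W Y = ((W : Mat n) * (Y : Mat n)).trace.re := rfl
    rw [e7] at hk
    linarith
  · simp only [coe_mk]
    rw [e1, ← Matrix.mul_assoc, ← Matrix.mul_assoc, hQ1]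

/-- The normal cone has an algebraic interior point when it spans. -/
lemma exists_core {C : Set (Herm n)} {X : Herm n}
    (hspan : ∀ L : Herm n, L ≠ 0 → ∃ Y ∈ ncone C X, pair L Y ≠ 0) :
    ∃ Y0 ∈ ncone C X, ∀ H : Herm n, ∃ δ : ℝ, 0 < δ ∧ Y0 + δ • H ∈ ncone C X := by
  classical
  have := finDim n
  have hinj : Function.Injective (pairL n) := by
    rw [← LinearMap.ker_eq_bot, LinearMap.ker_eq_bot']
    intro L hL
    by_contra hne
    have h1 := pair_self_pos hne
    have h2 : pairL n L L = pair L L := rfl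
    rw [hL] at h2
    simp only [LinearMap.zero_apply] at h2
    linarith
  have hsurj : Function.Surjective (pairL n) :=
    (LinearMap.injective_iff_surjective_of_finrank_eq_finrank
      (Subspace.dual_finrank_eq (K := ℝ) (V := Herm n)).symm).1 hinj
  -- the span of the cone is everything
  have htop : Submodule.span ℝ (ncone C X) = ⊤ := by
    by_contra hne
    obtain ⟨f, hf0, hf⟩ := Submodule.exists_le_ker_of_lt_top _ (lt_top_iff_ne_top.2 hne)
    obtain ⟨L, rfl⟩ := hsurj f
    have hL : L ≠ 0 := by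
      rintro rfl
      exact hf0 (map_zero _)
    obtain ⟨Y, hY, hne'⟩ := hspan L hL
    exact hne' (hf (Submodule.subset_span hY))
  -- every element is a difference of elements of the cone
  have hdiff : ∀ H : Herm n, ∃ P ∈ ncone C X, ∃ M ∈ ncone C X, H = P - M := by
    intro H
    have hH : H ∈ Submodule.span ℝ (ncone C X) := by rw [htop]; trivial
    induction hH using Submodule.span_induction with
    | mem x hx => exact ⟨x, hx, 0, ncone_zero C X, by simp⟩
    | zero => exact ⟨0, ncone_zero C X, 0, ncone_zero C X, by simp⟩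
    | add x y _ _ hx hy =>
      obtain ⟨P, hP, M, hM, rfl⟩ := hx
      obtain ⟨P', hP', M', hM', rfl⟩ := hy
      exact ⟨P + P', ncone_add hP hP', M + M', ncone_add hM hM', by abel⟩
    | smul a x _ hx =>
      obtain ⟨P, hP, M, hM, rfl⟩ := hx
      rcases le_total 0 a with ha | ha
      · exact ⟨a • P, ncone_smul hP ha, a • M, ncone_smul hM ha, by rw [smul_sub]⟩
      · refine ⟨(-a) • M, ncone_smul hM (by linarith), (-a) • P, ncone_smul hP (by linarith), ?_⟩
        rw [neg_smul, neg_smul, smul_sub]; abel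
  choose P hP M hM hPM using hdiff
  let b := Module.finBasis ℝ (Herm n)
  refine ⟨∑ i, (P (b i) + M (b i)), ncone_sum _ _ fun i _ => ncone_add (hP _) (hM _), fun H => ?_⟩
  set K : ℝ := 1 + ∑ i, |b.repr H i| with hK
  have hKpos : 0 < K := by
    have : 0 ≤ ∑ i, |b.repr H i| := Finset.sum_nonneg fun i _ => abs_nonneg _
    linarith
  refine ⟨K⁻¹, by positivity, ?_⟩
  have hH : H = ∑ i, b.repr H i • (P (b i) - M (b i)) := by
    conv_lhs => rw [← b.sum_repr H]
    refine Finset.sum_congr rfl fun i _ => ?_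
    rw [← hPM]
  have hle : ∀ i, |K⁻¹ * b.repr H i| ≤ 1 := by
    intro i
    rw [abs_mul, abs_of_pos (inv_pos.2 hKpos), inv_mul_le_iff₀ hKpos, mul_one]
    have : |b.repr H i| ≤ ∑ j, |b.repr H j| :=
      Finset.single_le_sum (f := fun j => |b.repr H j|) (fun j _ => abs_nonneg _) (Finset.mem_univ i)
    linarith
  have e : ∑ i, (P (b i) + M (b i)) + K⁻¹ • H =
      ∑ i, ((1 + K⁻¹ * b.repr H i) • P (b i) + (1 - K⁻¹ * b.repr H i) • M (b i)) := by
    conv_lhs => rw [hH]
    rw [Finset.smul_sum, ← Finset.sum_add_distrib]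
    refine Finset.sum_congr rfl fun i _ => ?_
    rw [smul_smul]
    module
  rw [e]
  refine ncone_sum _ _ fun i _ => ncone_add (ncone_smul (hP _) ?_) (ncone_smul (hM _) ?_)
  · have := (abs_le.1 (hle i)).1; linarith
  · have := (abs_le.1 (hle i)).2; linarith


lemma exists_herm {X : Mat n} (hX : X ≠ 0) {w : Fin n → ℂ} (hw : w ≠ 0) :
    ∃ H : Herm n, (X * (H : Mat n)) *ᵥ w ≠ 0 := by
  by_contra hcon
  push Not at hcon
  apply hX
  apply Matrix.ext_of_mulVec_single
  intro i
  rw [zero_mulVec]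
  set g : Fin n → ℂ := Pi.single i 1 with hg
  set M : Mat n := vecMulVec g (star w) with hM
  have h1 : (M + Mᴴ).IsHermitian := by
    rw [IsHermitian, conjTranspose_add, conjTranspose_conjTranspose, add_comm]
  have h2 : (Complex.I • (M - Mᴴ)).IsHermitian := by
    rw [IsHermitian, conjTranspose_smul, conjTranspose_sub, conjTranspose_conjTranspose]
    simp only [Complex.star_def, Complex.conj_I, neg_smul, ← smul_neg, neg_sub]
  have e1 := hcon (mk _ h1)
  have e2 := hcon (mk _ h2)
  simp only [coe_mk] at e1 e2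
  have e3 : (2 : ℂ) • (X * M) = X * (M + Mᴴ) - Complex.I • (X * (Complex.I • (M - Mᴴ))) := by
    rw [Matrix.mul_smul, smul_smul, Complex.I_mul_I, mul_add, mul_sub]
    module
  have e4 : ((2 : ℂ) • (X * M)) *ᵥ w = 0 := by
    rw [e3, sub_mulVec, smul_mulVec, e1, e2]; simp
  have e5 : (X * M) *ᵥ w = 0 := by
    rw [smul_mulVec] at e4
    exact (smul_eq_zero.1 e4).resolve_left two_ne_zero
  have hne : star w ⬝ᵥ w ≠ 0 := fun h => hw (dotProduct_star_self_eq_zero.1 h)
  have e6 : M *ᵥ w = (star w ⬝ᵥ w) • g := by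
    rw [hM, vecMulVec_mulVec]
    ext i
    simp [mul_comm]
  rw [← mulVec_mulVec, e6, mulVec_smul] at e5
  exact (smul_eq_zero.1 e5).resolve_left hne

lemma core_ker {C : Set (Herm n)} (hC : IsConvexCorner C) {X : Herm n} (hX : X ∈ C)
    {Y0 : Herm n} (hcore : ∀ H : Herm n, ∃ δ : ℝ, 0 < δ ∧ Y0 + δ • H ∈ ncone C X)
    (g : Fin n → ℂ) (hg : ((X : Mat n) * (Y0 : Mat n) * (X : Mat n)) *ᵥ g = 0) :
    (X : Mat n) *ᵥ g = 0 := by
  have hXh : (X : Mat n)ᴴ = X := X.2
  set v : Fin n → ℂ := (X : Mat n) *ᵥ g with hv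
  have hR : (vecMulVec v (star v)).PosSemidef := posSemidef_vecMulVec_self_star v
  obtain ⟨δ, hδ, hY⟩ := hcore (-(mk _ hR.1))
  have h1 := (conj_psd hC hX hY).dotProduct_mulVec_nonneg g
  have e1 : (X : Mat n) * ((Y0 + δ • (-(mk _ hR.1)) : Herm n) : Mat n) * (X : Mat n) =
      (X : Mat n) * (Y0 : Mat n) * (X : Mat n) - δ • ((X : Mat n) * vecMulVec v (star v) * (X : Mat n)) := by
    simp [mul_add, add_mul, sub_eq_add_neg]
  have e2 : star g ⬝ᵥ (((X : Mat n) * vecMulVec v (star v) * (X : Mat n)) *ᵥ g) =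
      (star v ⬝ᵥ v) * (star v ⬝ᵥ v) := by
    rw [← mulVec_mulVec, ← mulVec_mulVec, ← hv, vecMulVec_mulVec, dotProduct_mulVec]
    have : star g ᵥ* (X : Mat n) = star v := by
      rw [hv, star_mulVec, hXh]
    rw [this]
    simp
  rw [e1, sub_mulVec, hg, smul_mulVec, zero_sub, dotProduct_neg, dotProduct_smul, e2] at h1
  have hq : 0 ≤ star v ⬝ᵥ v := dotProduct_star_self_nonneg v
  have hq' := Complex.le_def.1 hq
  have h1' := Complex.le_def.1 h1
  set q : ℂ := star v ⬝ᵥ v with hqdef
  have him : q.im = 0 := by simpa using hq'.2.symm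
  have hre : 0 ≤ q.re := by simpa using hq'.1
  have h2 : 0 ≤ -(δ * (q.re * q.re)) := by
    have := h1'.1
    simpa [him] using this
  have h3 : q.re = 0 := by
    by_contra hne
    have : 0 < q.re := lt_of_le_of_ne hre (Ne.symm hne)
    have : 0 < δ * (q.re * q.re) := by positivity
    linarith
  have h4 : q = 0 := Complex.ext h3 him
  exact dotProduct_star_self_eq_zero.1 h4

lemma ker_add {A B : Mat n} (hA : A.PosSemidef) (hB : B.PosSemidef) {g : Fin n → ℂ}
    (h : (A + B) *ᵥ g = 0) : A *ᵥ g = 0 ∧ B *ᵥ g = 0 := by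
  have h1 : star g ⬝ᵥ (A *ᵥ g) + star g ⬝ᵥ (B *ᵥ g) = 0 := by
    rw [← dotProduct_add, ← add_mulVec, h, dotProduct_zero]
  have hA' := hA.dotProduct_mulVec_nonneg g
  have hB' := hB.dotProduct_mulVec_nonneg g
  have h2 := (add_eq_zero_iff_of_nonneg hA' hB').1 h1
  exact ⟨(hA.dotProduct_mulVec_zero_iff g).1 h2.1, (hB.dotProduct_mulVec_zero_iff g).1 h2.2⟩

lemma exists_pd {C : Set (Herm n)} (hC : IsConvexCorner C) {X : Herm n} (hX : X ∈ C)
    (hX0 : X ≠ 0) {Y0 : Herm n} (hY0 : Y0 ∈ ncone C X)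
    (hcore : ∀ H : Herm n, ∃ δ : ℝ, 0 < δ ∧ Y0 + δ • H ∈ ncone C X) :
    ∃ Z ∈ ncone C X, ∃ c : ℝ, 0 < c ∧ ((Z : Mat n) - c • (1 : Mat n)).PosSemidef := by
  have hX0' : (X : Mat n) ≠ 0 := fun h => hX0 (Subtype.ext h)
  have hne : ({Z : Herm n | Z ∈ ncone C X ∧ Z ∈ psd n}).Nonempty :=
    ⟨0, ncone_zero C X, by simpa [psd] using (PosSemidef.zero : (0 : Mat n).PosSemidef)⟩
  obtain ⟨Z, ⟨hZN, hZP⟩, hmin⟩ :=
    (measure (fun Z : Herm n => Module.finrank ℂ (LinearMap.ker (Z : Mat n).mulVecLin))).wf.has_min _ hne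
  refine ⟨Z, hZN, exists_pos_le _ hZP ?_⟩
  intro w hw
  by_contra hw0
  -- find `Y` in the cone with the right properties
  obtain ⟨Y, hYN, hYker, hYw⟩ : ∃ Y ∈ ncone C X,
      (∀ g, ((X : Mat n) * (Y : Mat n) * (X : Mat n)) *ᵥ g = 0 → (X : Mat n) *ᵥ g = 0) ∧
      ((X : Mat n) * (Y : Mat n)) *ᵥ w ≠ 0 := by
    by_cases h0 : ((X : Mat n) * (Y0 : Mat n)) *ᵥ w = 0
    · obtain ⟨H, hH⟩ := exists_herm hX0' hw0
      obtain ⟨δ, hδ, hY⟩ := hcore H
      refine ⟨Y0 + (Y0 + δ • H), ncone_add hY0 hY, ?_, ?_⟩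
      · intro g hg
        have e : (X : Mat n) * ((Y0 + (Y0 + δ • H) : Herm n) : Mat n) * (X : Mat n) =
            (X : Mat n) * (Y0 : Mat n) * (X : Mat n) +
              (X : Mat n) * ((Y0 + δ • H : Herm n) : Mat n) * (X : Mat n) := by
          rw [← add_mul, ← mul_add]; rfl
        rw [e] at hg
        exact core_ker hC hX hcore g (ker_add (conj_psd hC hX hY0) (conj_psd hC hX hY) hg).1
      · have e : (X : Mat n) * ((Y0 + (Y0 + δ • H) : Herm n) : Mat n) =
            (X : Mat n) * (Y0 : Mat n) + ((X : Mat n) * (Y0 : Mat n) + δ • ((X : Mat n) * (H : Mat n))) := by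
          simp [mul_add]
        rw [e, add_mulVec, add_mulVec, h0, smul_mulVec, zero_add, zero_add]
        exact smul_ne_zero hδ.ne' hH
    · exact ⟨Y0, hY0, core_ker hC hX hcore, h0⟩
  obtain ⟨Z', hZ'N, hZ'P, hZ'⟩ := exists_schur_elt hC hX hYN hYker
  have hmem : (Z + Z' : Herm n) ∈ {Z : Herm n | Z ∈ ncone C X ∧ Z ∈ psd n} :=
    ⟨ncone_add hZN hZ'N, by
      have : ((Z + Z' : Herm n) : Mat n).PosSemidef := PosSemidef.add hZP hZ'P
      exact this⟩
  apply hmin _ hmem
  change Module.finrank ℂ (LinearMap.ker ((Z + Z' : Herm n) : Mat n).mulVecLin) <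
    Module.finrank ℂ (LinearMap.ker (Z : Mat n).mulVecLin)
  apply Submodule.finrank_lt_finrank_of_lt
  rw [SetLike.lt_iff_le_and_exists]
  refine ⟨?_, w, ?_, ?_⟩
  · intro g hg
    simp only [LinearMap.mem_ker, mulVecLin_apply] at hg ⊢
    exact (ker_add hZP hZ'P hg).1
  · simpa using hw
  · intro hcon
    simp only [LinearMap.mem_ker, mulVecLin_apply] at hcon
    have h2 := (ker_add hZP hZ'P hcon).2
    apply hYw
    rw [← hZ', ← mulVec_mulVec, h2, mulVec_zero]

lemma finrank_herm (n : ℕ) : Module.finrank ℝ (Herm n) = n ^ 2 := by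
  have := finDim n
  have h1 : Module.finrank ℝ (Mat n) = 2 * n ^ 2 := by
    rw [finrank_real_of_complex, Module.finrank_matrix]
    simp [pow_two]
  have h2 := (StarModule.decomposeProdAdjoint ℝ (Mat n)).finrank_eq
  have hbij : Function.Bijective (skewAdjoint.negISMul (A := Mat n)) := by
    refine ⟨?_, ?_⟩
    · intro a b hab
      have ha := skewAdjoint.I_smul_neg_I a
      have hb := skewAdjoint.I_smul_neg_I b
      apply Subtype.ext
      rw [← ha, ← hb, hab]
    · intro a
      refine ⟨⟨Complex.I • (a : Mat n), ?_⟩, ?_⟩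
      · rw [Complex.I_smul_mem_skewAdjoint_iff_isSelfAdjoint]
        exact a.2
      · apply Subtype.ext
        simp [skewAdjoint.negISMul, smul_smul]
  have h3 : Module.finrank ℝ (skewAdjoint (Mat n)) = Module.finrank ℝ (Herm n) :=
    (LinearEquiv.ofBijective (skewAdjoint.negISMul (A := Mat n)) hbij).finrank_eq
  have : Module.Finite ℝ (skewAdjoint (Mat n)) :=
    Module.Finite.equiv (LinearEquiv.ofBijective (skewAdjoint.negISMul (A := Mat n)) hbij).symm
  have h4 : Module.finrank ℝ (Herm n × skewAdjoint (Mat n)) =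
      Module.finrank ℝ (Herm n) + Module.finrank ℝ (skewAdjoint (Mat n)) :=
    Module.finrank_prod
  rw [h1, h4, h3] at h2
  omega

end cone

/-- **Main result.**  For every `n ≥ 1`, every convex corner `C ⊆ P_n` and every nonzero vertex
`X` of `C`, the set `F_X = {Z ∈ C^♯ : Tr (X Z) = 1}` is a facet of `C^♯`. -/
theorem result : ∀ n : ℕ, 1 ≤ n → ∀ C : Set (Herm n), IsConvexCorner C →
    ∀ X : Herm n, X ≠ 0 → IsVertex C X →
      IsFacet (antiblocker C) {Z | Z ∈ antiblocker C ∧ pair X Z = 1} := by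
  intro n hn C hC X hX0 hXv
  have := finDim n
  have hX : X ∈ C := by
    have := frontier_subset_closure hXv.1
    rwa [hC.isClosed.closure_eq] at this
  have hXh : (X : Mat n)ᴴ = X := X.2
  have hXp : (X : Mat n).PosSemidef := hC.subset_psd hX
  -- the normal cone spans
  have hspan : ∀ L : Herm n, L ≠ 0 → ∃ Y ∈ ncone C X, pair L Y ≠ 0 := by
    intro L hL
    by_contra hcon
    push Not at hcon
    have hmem : X + L ∈ ⋂₀ {P | IsSupportingHyperplane C {X} P} := by
      rintro P ⟨Y, α, -, rfl, hle, heq⟩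
      have h1 : pair X Y = α := heq X rfl
      have h2 : Y ∈ ncone C X := fun W hW => by rw [h1]; exact hle W hW
      change pair (X + L) Y = α
      rw [pair_add_left, hcon Y h2, h1, add_zero]
    rw [hXv.2] at hmem
    have : X + L = X := hmem
    exact hL (by simpa using this)
  obtain ⟨Y0, hY0, hcore⟩ := exists_core hspan
  obtain ⟨Z, hZN, c, hc, hZc⟩ := exists_pd hC hX hX0 hY0 hcore
  -- a positive definite element in the algebraic interior of the normal cone
  obtain ⟨κ, hκ, hκ'⟩ := exists_le_one (-(Y0 : Mat n)) (by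
    have : (Y0 : Mat n).IsHermitian := Y0.2
    exact this.neg)
  set ε : ℝ := c / (2 * (κ + 1)) with hε
  have hε0 : 0 < ε := by positivity
  set Z1 : Herm n := Z + ε • Y0 with hZ1
  have hZ1N : Z1 ∈ ncone C X := ncone_add hZN (ncone_smul hY0 hε0.le)
  have hZ1p : ((Z1 : Mat n) - (c / 2) • (1 : Mat n)).PosSemidef := by
    have h1 := (hZc.add (psmul hκ' hε0.le)).add (psmul (PosSemidef.one (n := Fin n) (R := ℂ)) hε0.le)
    have e : (Z : Mat n) - c • (1 : Mat n) + ε • (κ • (1 : Mat n) - -(Y0 : Mat n)) + ε • (1 : Mat n) =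
        (Z1 : Mat n) - (c / 2) • (1 : Mat n) := by
      have e1 : ((Z1 : Herm n) : Mat n) = (Z : Mat n) + ε • (Y0 : Mat n) := rfl
      have e2 : c / 2 = ε * (κ + 1) := by rw [hε]; field_simp
      have e3 : c = ε * (κ + 1) * 2 := by rw [← e2]; ring
      rw [e1, e2]
      conv_lhs => rw [e3]
      module
    rwa [e] at h1
  have hZ1psd : (Z1 : Mat n).PosSemidef := by
    have h1 := hZ1p.add (psmul (PosSemidef.one (n := Fin n) (R := ℂ)) (c := c / 2) (by positivity))
    simpa using h1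
  -- robustness
  have hrob : ∀ H : Herm n, ∃ δ : ℝ, 0 < δ ∧ Z1 + δ • H ∈ ncone C X ∧ Z1 + δ • H ∈ psd n := by
    intro H
    obtain ⟨δ1, hδ1, h1⟩ := hcore H
    obtain ⟨κ', hκ'0, hκ'1⟩ := exists_le_one (-(H : Mat n)) (by
      have : (H : Mat n).IsHermitian := H.2
      exact this.neg)
    set δ2 : ℝ := c / 2 / (κ' + 1) with hδ2
    have hδ20 : 0 < δ2 := by positivity
    set δ : ℝ := min (ε * δ1) δ2 with hδ
    have hδ0 : 0 < δ := lt_min (by positivity) hδ20
    refine ⟨δ, hδ0, ?_, ?_⟩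
    · -- convexity of the cone
      have hle : δ ≤ ε * δ1 := min_le_left _ _
      set θ : ℝ := δ / (ε * δ1) with hθ
      have hθ1 : θ ≤ 1 := by rw [hθ, div_le_one (by positivity)]; exact hle
      have hθ0 : 0 ≤ θ := by positivity
      have e : Z1 + δ • H = Z + ((ε * (1 - θ)) • Y0 + (ε * θ) • (Y0 + δ1 • H)) := by
        have e1 : δ = ε * θ * δ1 := by rw [hθ]; field_simp
        rw [hZ1, e1]
        module
      rw [e]
      exact ncone_add hZN (ncone_add (ncone_smul hY0 (mul_nonneg hε0.le (by linarith)))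
        (ncone_smul h1 (by positivity)))
    · have hle : δ ≤ δ2 := min_le_right _ _
      have h2 := (hZ1p.add (psmul hκ'1 hδ0.le)).add
        (psmul (PosSemidef.one (n := Fin n) (R := ℂ)) (c := c / 2 - δ * κ') (by
          have : δ * (κ' + 1) ≤ c / 2 := by
            calc δ * (κ' + 1) ≤ δ2 * (κ' + 1) := by
                  apply mul_le_mul_of_nonneg_right hle (by positivity)
              _ = c / 2 := by rw [hδ2]; field_simp
          nlinarith))
      have e : (Z1 : Mat n) - (c / 2) • (1 : Mat n) + δ • (κ' • (1 : Mat n) - -(H : Mat n)) +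
          (c / 2 - δ * κ') • (1 : Mat n) = ((Z1 + δ • H : Herm n) : Mat n) := by
        have e1 : ((Z1 + δ • H : Herm n) : Mat n) = (Z1 : Mat n) + δ • (H : Mat n) := rfl
        rw [e1]
        module
      rw [e] at h2
      exact h2
  -- positivity of the pairing with X
  have hm : 0 < pair X Z1 := by
    obtain ⟨B, hB⟩ := exists_factor hXp
    have h1 := (hZ1p.mul_mul_conjTranspose_same B).trace_nonneg
    have h2 : (B * ((Z1 : Mat n) - (c / 2) • (1 : Mat n)) * Bᴴ).trace =
        ((X : Mat n) * (Z1 : Mat n)).trace - (c / 2) • (X : Mat n).trace := by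
      rw [Matrix.trace_mul_comm, ← Matrix.mul_assoc, ← hB, mul_sub, trace_sub]
      simp
    rw [h2] at h1
    have h3 : 0 ≤ (X : Mat n).trace := hXp.trace_nonneg
    have h4 : (X : Mat n).trace ≠ 0 := by
      rw [Ne, hXp.trace_eq_zero_iff]
      intro h
      exact hX0 (Subtype.ext h)
    have h5 : 0 < (X : Mat n).trace := lt_of_le_of_ne h3 (Ne.symm h4)
    have h6 := (Complex.lt_def.1 h5).1
    have h7 := (Complex.le_def.1 h1).1
    have h8 : pair X Z1 = ((X : Mat n) * (Z1 : Mat n)).trace.re := rfl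
    simp only [Complex.sub_re, Complex.real_smul, Complex.mul_re, Complex.ofReal_re,
      Complex.ofReal_im, zero_mul, sub_zero, Complex.zero_re] at h6 h7
    rw [h8]
    have : 0 < c / 2 * (X : Mat n).trace.re := by positivity
    linarith
  set m : ℝ := pair X Z1 with hmdef
  set Z2 : Herm n := m⁻¹ • Z1 with hZ2
  have hF : ∀ Z' : Herm n, Z' ∈ ncone C X → Z' ∈ psd n → pair X Z' = 1 →
      Z' ∈ {Z | Z ∈ antiblocker C ∧ pair X Z = 1} := by
    intro Z' h1 h2 h3
    refine ⟨⟨h2, fun W hW => ?_⟩, h3⟩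
    have := h1 W hW
    rwa [h3] at this
  have hZ2X : pair X Z2 = 1 := by
    rw [hZ2, pair_smul_right, ← hmdef, inv_mul_cancel₀ hm.ne']
  have hZ2F : Z2 ∈ {Z | Z ∈ antiblocker C ∧ pair X Z = 1} := by
    refine hF _ (ncone_smul hZ1N (by positivity)) ?_ hZ2X
    exact psmul hZ1psd (by positivity)
  have hXX := pair_self_pos hX0
  refine ⟨⟨X, 1, hX0, ?_, ?_⟩, ?_, ⟨Z2, hZ2F⟩, ?_⟩
  · intro W hW
    rw [pair_comm]
    exact hW.2 X hX
  · ext W
    simp only [Set.mem_ofPred_eq, pair_comm]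
  · rintro W ⟨hW, hWX⟩
    rw [frontier, Set.mem_sdiff]
    refine ⟨subset_closure hW, fun hint => ?_⟩
    have hcont : Continuous (fun t : ℝ => W + t • X) := by
      refine continuous_induced_rng.2 ?_
      change Continuous (fun t : ℝ => (W : Mat n) + t • (X : Mat n))
      fun_prop
    have h0 : (fun t : ℝ => W + t • X) 0 ∈ interior (antiblocker C) := by simpa using hint
    have hnhds : ∀ᶠ t in nhds (0 : ℝ), W + t • X ∈ interior (antiblocker C) :=
      hcont.continuousAt.eventually (isOpen_interior.mem_nhds h0)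
    obtain ⟨δ, hδ, hball⟩ := Metric.eventually_nhds_iff.1 hnhds
    have h1 := hball (y := δ / 2) (by
      rw [Real.dist_eq, sub_zero, abs_of_pos (by positivity)]; linarith)
    have h2 := (interior_subset h1).2 X hX
    rw [pair_add_right, hWX, pair_smul_right] at h2
    have : 0 < δ / 2 * pair X X := by positivity
    linarith
  · rw [direction_affineSpan]
    have hker : vectorSpan ℝ {Z | Z ∈ antiblocker C ∧ pair X Z = 1} = LinearMap.ker (pairL n X) := by
      apply le_antisymm
      · rw [vectorSpan_def, Submodule.span_le]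
        rintro _ ⟨A, ⟨-, hA⟩, B, ⟨-, hB⟩, rfl⟩
        change pair X (A - B) = 0
        rw [pair_comm, pair_sub_left, pair_comm A, pair_comm B, hA, hB, sub_self]
      · intro H hH
        have hH' : pair X H = 0 := hH
        obtain ⟨δ, hδ, h1, h2⟩ := hrob H
        have h3 : m⁻¹ • (Z1 + δ • H) ∈ {Z | Z ∈ antiblocker C ∧ pair X Z = 1} := by
          refine hF _ (ncone_smul h1 (by positivity)) ?_ ?_
          · exact psmul h2 (by positivity)
          · rw [pair_smul_right, pair_add_right, pair_smul_right, hH', mul_zero, add_zero,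
              ← hmdef, inv_mul_cancel₀ hm.ne']
        have h4 := vsub_mem_vectorSpan ℝ h3 hZ2F
        have e : H = (m * δ⁻¹) • (m⁻¹ • (Z1 + δ • H) -ᵥ Z2) := by
          rw [hZ2, vsub_eq_sub, ← smul_sub, add_sub_cancel_left, smul_smul, smul_smul]
          have : m * δ⁻¹ * m⁻¹ * δ = 1 := by
            field_simp
          rw [this, one_smul]
        rw [e]
        exact Submodule.smul_mem _ _ h4
    rw [hker]
    have hne : pairL n X ≠ 0 := by
      intro h
      have h1 : pairL n X X = pair X X := rfl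
      rw [h] at h1
      simp only [LinearMap.zero_apply] at h1
      linarith
    have h1 := Module.Dual.finrank_ker_add_one_of_ne_zero hne
    rw [finrank_herm] at h1
    omega

end Pool.Agent.Results.MP_59e64e_co.VertexFacet
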